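import Pool.Agent.Helper23.EC.DGoalsM

/-!
# MP_ecc237_nt, Part D, packet MPB
-/

set_option autoImplicit false

open MeasureTheory Filter Topology Set

namespace Pool.Agent.Helper50.EC.D_MPB

open EC237

/-- the change of variables `(m1,m2,m3) ↦ ((m4,m1),m2)` -/
def eqv : ℤ × ℤ × ℤ ≃ (ℤ × ℤ) × ℤ where
  toFun m := ((-(m.1 + m.2.1 + m.2.2), m.1), m.2.1)
  invFun q := (q.1.2, q.2, -(q.1.1 + q.1.2 + q.2))
  left_inv m := by
    obtain ⟨a, b, c⟩ := m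
    simp only [Prod.mk.injEq, true_and]
    ring
  right_inv q := by
    obtain ⟨⟨a, b⟩, c⟩ := q
    simp only [Prod.mk.injEq, and_true]
    ring

theorem hasSum_mul' {ι κ : Type} {f : ι → ℂ} {g : κ → ℂ} {s t : ℂ} (hf : HasSum f s)
    (hg : HasSum g t) : HasSum (fun x : ι × κ => f x.1 * g x.2) (s * t) :=
  hf.mul hg (summable_mul_of_summable_norm hf.summable.norm hg.summable.norm)

theorem thm (hN4 : EC237.N4) (hN5 : EC237.N5) (hN12 : EC237.N12) (hN13 : EC237.N13) :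
    EC237.MPB := by
  intro y hy
  have hx0 : ∀ r m : ℤ, xS y r m 0 1 = 0 := by
    intro r m
    obtain ⟨_, _, _, _, _, _, h, _⟩ := hN4 y hy r m 0
    rw [h]
    simp
  have hp0 : ∀ r1 r2 m1 m2 : ℤ, pS y r1 r2 m1 m2 0 0 1 = 0 := by
    intro r1 r2 m1 m2
    obtain ⟨_, _, h, _⟩ := hN5 y hy r1 r2 m1 m2 0 0
    rw [h]
    simp
  constructor
  · have h : ∀ m : ℤ × ℤ × ℤ, PM y (lB1 m) (lB2 m) (lB3 m) (lB4 m) = 0 := by
      intro m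
      show -(pS y 1 5 m.1 m.2.1 1 (-1) 1 * (xS y 5 m.2.2 0 1 - xS y 1 (-(m.1 + m.2.1 + m.2.2)) 0 1))
        - pS y 5 1 m.2.2 (-(m.1 + m.2.1 + m.2.2)) 0 0 1 * (xS y 1 m.1 1 1 - xS y 5 m.2.1 (-1) 1) = 0
      rw [hx0, hx0, hp0]
      ring
    simp only [h]
    exact hasSum_zero
  · obtain ⟨hs, h1, h2, _, _⟩ := hN12 y hy
    obtain ⟨_, _, _, _, h5, h6⟩ := hN13 y hy
    have hg1 : HasSum (fun m : ℤ => xS y 1 m 1 1) ((y * D1 y : ℝ) : ℂ) := by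
      rw [← h1]
      exact (hs 1 1 (by norm_num)).hasSum
    have hg2 : HasSum (fun m : ℤ => xS y 5 m (-1) 1) ((y * D1 y : ℝ) : ℂ) := by
      rw [← h2]
      exact (hs 5 (-1) (by norm_num)).hasSum
    have hA := hasSum_mul' hg1 h5
    have hB := (Equiv.hasSum_iff eqv).mpr (hasSum_mul' h6 hg2)
    have hC := hA.sub hB
    have e : ((y * D1 y : ℝ) : ℂ) * (1 / 2 * PiS (y:ℂ) 1) - -(1 / 2 * PiS (y:ℂ) 1) *
        ((y * D1 y : ℝ) : ℂ) = ((y * D1 y : ℝ) : ℂ) * PiS (y:ℂ) 1 := by ring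
    rw [e] at hC
    refine hC.congr_fun ?_
    intro m
    show -(pS y 5 5 m.2.1 m.2.2 (-1) 0 1 * (xS y 1 (-(m.1 + m.2.1 + m.2.2)) 0 1 - xS y 1 m.1 1 1))
        - pS y 1 1 (-(m.1 + m.2.1 + m.2.2)) m.1 0 1 1 * (xS y 5 m.2.1 (-1) 1 - xS y 5 m.2.2 0 1)
      = xS y 1 m.1 1 1 * pS y 5 5 m.2.1 m.2.2 (-1) 0 1
        - pS y 1 1 (-(m.1 + m.2.1 + m.2.2)) m.1 0 1 1 * xS y 5 m.2.1 (-1) 1
    rw [hx0, hx0]
    ring

end Pool.Agent.Helper50.EC.D_MPB
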